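import Pool.Agent.LibSNC53.Equiv

set_option autoImplicit false

namespace Pool.Agent.Results.MP_fa645e_co.Equivalence

open Pool.Agent.LibSNC53

universe u

theorem result (γ : ℝ) :
    [ (∀ (V : Type) [Finite V] [Nonempty V] (E : V → V → Prop), Oriented E →
        ∃ v, γ * ((outN E v).ncard : ℝ) ≤ ((outN2 E v).ncard : ℝ)),
      (∀ (V : Type u) [Nonempty V] (E : V → V → Prop), Oriented E →
        (∀ v, {w | E v w}.Finite) → (∀ v, {w | E w v}.Finite) →
        ∃ v, γ * ((outN E v).ncard : ℝ) ≤ ((outN2 E v).ncard : ℝ)),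
      (∀ (V : Type u) [Nonempty V] (E : V → V → Prop), Oriented E →
        (∀ v, {w | E v w}.Finite) →
        ∃ v, γ * ((outN E v).ncard : ℝ) ≤ ((outN2 E v).ncard : ℝ)) ].TFAE := by
  tfae_have 3 → 2 := by
    intro h V _ E hE hout _
    exact h V E hE hout
  tfae_have 2 → 1 := by
    intro h V _ _ E hE
    let E' : ULift.{u} V → ULift.{u} V → Prop := fun x y => E x.down y.down
    have h' : Good γ E' := h (ULift.{u} V) E' (oriented_comap ULift.down E hE)
      (fun v => Set.toFinite _) (fun v => Set.toFinite _)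
    exact good_of_equiv (Equiv.ulift : ULift.{u} V ≃ V) E h'
  tfae_have 1 → 3 := by
    intro h V hV E hE hout
    by_cases hγ : γ ≤ 1
    · obtain ⟨v0⟩ := hV
      obtain ⟨A, hAfin, hXA, hA⟩ := transfer E hout {v0} (Set.finite_singleton v0)
      apply good_of_ind hγ E hout A hA
      have : Finite A := hAfin
      obtain ⟨n, ⟨e⟩⟩ := Finite.exists_equiv_fin A
      have hne : Nonempty (Fin n) := ⟨e ⟨v0, hXA rfl⟩⟩
      apply good_of_equiv e.symm (ind E A)
      exact h (Fin n) _ (oriented_comap (fun i => (e.symm i).1) E hE)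
    · exfalso
      exact no_good_cycle (lt_of_not_ge hγ) (h (ZMod 3) _ oriented_cycle)
  tfae_finish

end Pool.Agent.Results.MP_fa645e_co.Equivalence
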