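import Pool.Agent.LibSNC53.CSYStep

set_option autoImplicit false

namespace Pool.Agent.Results.MP_fa645e_co.GammaBound

open Pool.Agent.LibSNC53

universe u

theorem result {V : Type u} [Nonempty V] (E : V → V → Prop) (hE : Oriented E)
    (hfin : ∀ v, {w | E v w}.Finite) (γ : ℝ) (hγ : 2 * γ ^ 3 + γ ^ 2 = 1) :
    ∃ v, γ * ((outN E v).ncard : ℝ) ≤ ((outN2 E v).ncard : ℝ) := by
  obtain ⟨hγ0, hγ1⟩ := root_bounds γ hγ
  apply csy_step E hE hfin γ hγ hγ0 hγ1
  intro v hv
  have h1 : Finite (outN E v) := (hfin v)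
  have h2 : Nonempty (outN E v) := hv.to_subtype
  exact csy_finite γ hγ _ _ _ (oriented_comap _ E hE) le_rfl

end Pool.Agent.Results.MP_fa645e_co.GammaBound
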