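import Pool.Agent.LibSNC53.Tournament

set_option autoImplicit false

namespace Pool.Agent.Results.MP_fa645e_co.Tournament

open Pool.Agent.LibSNC53

universe u

theorem result {V : Type u} [Nonempty V] (E : V → V → Prop) (hE : Oriented E)
    (htot : ∀ x y, x ≠ y → E x y ∨ E y x) (hfin : ∀ v, {w | E v w}.Finite) :
    ∃ v, (outN E v).ncard ≤ (outN2 E v).ncard := by
  obtain ⟨v0⟩ := (inferInstance : Nonempty V)
  obtain ⟨A, hAfin, hXA, hA⟩ := transfer E hfin {v0} (Set.finite_singleton v0)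
  have h1 : Finite A := hAfin
  have h2 : Nonempty A := ⟨⟨v0, hXA rfl⟩⟩
  obtain ⟨v, hv⟩ := finite_tournament (ind E A) (oriented_comap _ E hE)
    (fun x y hxy => htot x.1 y.1 (fun h => hxy (Subtype.ext h)))
  refine ⟨v.1, ?_⟩
  have h3 := hA v
  omega

end Pool.Agent.Results.MP_fa645e_co.Tournament
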