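import Pool.Agent.LibSNC53.Basic

set_option autoImplicit false

namespace Pool.Agent.Results.MP_fa645e_co.Transfer

open Pool.Agent.LibSNC53

universe u

theorem result {V : Type u} (E : V → V → Prop) (hloop : ∀ v, ¬ E v v)
    (hfin : ∀ v, {w | E v w}.Finite) (X : Set V) (hX : X.Finite) :
    ∃ A : Set V, A.Finite ∧ X ⊆ A ∧ ∀ v : A,
      ((outN2 (ind E A) v).ncard : ℤ) - (outN (ind E A) v).ncard ≤
        (outN2 E v.1).ncard - (outN E v.1).ncard := by
  obtain ⟨A, h1, h2, h3⟩ := transfer E hfin X hX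
  refine ⟨A, h1, h2, fun v => ?_⟩
  have := h3 v
  omega

end Pool.Agent.Results.MP_fa645e_co.Transfer
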